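import Pool.Agent.Run7.h724.FinE

/-!
# Roots modulo primes with a fixed number of roots: one interval decides

From Mathlib: `Polynomial.scaleRoots f m`, which is `m ^ n f(X / m)`, `n` the degree of `f`;
`Polynomial.Gal`, the Galois group.

Method: if `m ν` is reduced modulo `p`, then the roots of `f` become the roots of `m ^ n f(X / m)`,
for the primes `p` which do not divide `m`. An exponential sum is bounded by the numbers of the
visits of the multiples of a sequence to the three thirds of the unit interval
(`Pool.Agent.Run7.h776.MS.main_ineq`, by Moebius inversion and Davenport's bound), and the last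
third is the first third for `-m`.
-/

set_option autoImplicit false

namespace Pool.Agent.Results.MP_fd299c_nt.OneThirdDecides

open Finset Filter Topology Polynomial

/-- The roots of `f` modulo `p` in `[0, p)`. -/
def roots (f : ℤ[X]) (p : ℕ) : Finset ℕ :=
  (Finset.range p).filter (fun ν : ℕ => (p : ℤ) ∣ f.eval (ν : ℤ))

/-- The roots `ν` of `f` modulo `p` in `[0, p)` with `a ≤ ν / p < b`. -/
noncomputable def part (f : ℤ[X]) (a b : ℝ) (p : ℕ) : Finset ℕ :=
  (Finset.range p).filter (fun ν : ℕ => (p : ℤ) ∣ f.eval (ν : ℤ) ∧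
    a ≤ (ν : ℝ) / (p : ℝ) ∧ (ν : ℝ) / (p : ℝ) < b)

/-- The primes `p ≤ x` such that `f` has exactly `r` roots modulo `p`. -/
def primesWith (f : ℤ[X]) (r x : ℕ) : Finset ℕ :=
  (Finset.range (x + 1)).filter (fun p : ℕ => p.Prime ∧ (roots f p).card = r)

/-- The proportion of the pairs `(p, ν)` with `a ≤ ν / p < b` among all pairs of a prime `p ≤ x` such
that `f` has exactly `r` roots modulo `p` and of such a root `ν`. -/
noncomputable def share (f : ℤ[X]) (r : ℕ) (a b : ℝ) (x : ℕ) : ℝ :=
  ((∑ p ∈ primesWith f r x, (part f a b p).card : ℕ) : ℝ) / ((∑ p ∈ primesWith f r x, r : ℕ) : ℝ)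

/-- Infinitely many primes have exactly `r` roots of `f`. -/
def Often (f : ℤ[X]) (r : ℕ) : Prop := {p : ℕ | p.Prime ∧ (roots f p).card = r}.Infinite

/-- `f` is monic and irreducible of degree at least two. -/
def Admissible (f : ℤ[X]) : Prop := f.Monic ∧ Irreducible f ∧ 2 ≤ f.natDegree

/-- The roots are equidistributed along the primes with `r` roots. -/
def Equidistributed (f : ℤ[X]) (r : ℕ) : Prop :=
  ∀ a b : ℝ, 0 ≤ a → a ≤ b → b ≤ 1 → Tendsto (share f r a b) atTop (𝓝 (b - a))

/-- One third of the roots along the primes with `r` roots is in the first third. -/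
def FirstThird (f : ℤ[X]) (r : ℕ) : Prop := Tendsto (share f r 0 (1 / 3)) atTop (𝓝 (1 / 3))

open Pool.Agent.Run7.h724.Fam

lemma share_eq (f : ℤ[X]) (r : ℕ) (a b : ℝ) (x : ℕ) : share f r a b x =
    (rc f (fun p => (rts f p).card = r) a b x : ℝ) /
      ((fam f (fun p => (rts f p).card = r) x).card : ℝ) := by
  unfold share
  have h1 : primesWith f r x = prs (fun p => (rts f p).card = r) x := rfl
  have h2 : ∑ p ∈ primesWith f r x, r = (fam f (fun p => (rts f p).card = r) x).card := by
    rw [card_fam, h1]
    refine sum_congr rfl fun p hp => ?_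
    unfold prs at hp
    rw [mem_filter] at hp
    exact hp.2.2.symm
  have h3 : ∑ p ∈ primesWith f r x, (part f a b p).card =
      rc f (fun p => (rts f p).card = r) a b x := by
    unfold rc
    rw [h1]
    refine sum_congr rfl fun p _ => ?_
    unfold part rin rts
    rw [filter_filter]
  rw [h2, h3]

lemma fam_tendsto (f : ℤ[X]) (r : ℕ) (hr : 1 ≤ r) (h : Often f r) :
    Tendsto (fun x => ((fam f (fun p => (rts f p).card = r) x).card : ℝ)) atTop atTop := by
  refine tendsto_natCast_atTop_atTop.comp ?_
  refine tendsto_atTop_mono (fun x => ?_)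
    (prs_card_tendsto (fun p => (rts f p).card = r) h)
  rw [card_fam, card_eq_sum_ones]
  refine sum_le_sum fun p hp => ?_
  unfold prs at hp
  rw [mem_filter] at hp
  rw [hp.2.2]
  exact hr

theorem single (f : ℤ[X]) (hf : Admissible f) (r : ℕ) (hr : 1 ≤ r) (hinf : Often f r) :
    Equidistributed f r ↔ ∀ m : ℤ, m ≠ 0 → FirstThird (f.scaleRoots m) r := by
  have h0 : f.eval 0 ≠ 0 := eval_zero_ne f hf.2.1 hf.2.2
  have hw := fam_tendsto f r hr hinf
  have hPP : ∀ m : ℤ, m ≠ 0 → ∀ p : ℕ, p.Prime → ¬ (p : ℤ) ∣ m →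
      ((rts f p).card = r ↔ (rts (f.scaleRoots m) p).card = r) := by
    intro m _ p hp hd
    rw [rts_card f m p hp hd]
  have e1 : ∀ m : ℤ, m ≠ 0 → (FirstThird (f.scaleRoots m) r ↔
      Tendsto (fun x => ((rc (f.scaleRoots m) (fun p => (rts (f.scaleRoots m) p).card = r)
        0 (1 / 3) x : ℝ) - ((fam (f.scaleRoots m)
        (fun p => (rts (f.scaleRoots m) p).card = r) x).card : ℝ) / 3) /
        ((fam f (fun p => (rts f p).card = r) x).card : ℝ)) atTop (𝓝 0)) := by
    intro m hm
    unfold FirstThird
    have h1 : share (f.scaleRoots m) r 0 (1 / 3) = fun x =>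
        (rc (f.scaleRoots m) (fun p => (rts (f.scaleRoots m) p).card = r) 0 (1 / 3) x : ℝ) /
        ((fam (f.scaleRoots m) (fun p => (rts (f.scaleRoots m) p).card = r) x).card : ℝ) := by
      funext x
      exact share_eq _ _ _ _ _
    rw [h1, ratio hw (fun x => card_diff f _ _ m hm (hPP m hm) x) (1 / 3)]
    refine Iff.of_eq ?_
    congr 1
    funext x
    ring
  have e2 : Equidistributed f r ↔ ∀ a b : ℝ, 0 ≤ a → a ≤ b → b ≤ 1 →
      Tendsto (fun x => ((rc f (fun p => (rts f p).card = r) a b x : ℝ) - (b - a) *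
        ((fam f (fun p => (rts f p).card = r) x).card : ℝ)) /
        ((fam f (fun p => (rts f p).card = r) x).card : ℝ)) atTop (𝓝 0) := by
    unfold Equidistributed
    refine forall_congr' fun a => forall_congr' fun b => imp_congr_right fun _ =>
      imp_congr_right fun _ => imp_congr_right fun _ => ?_
    have h1 : share f r a b = fun x => (rc f (fun p => (rts f p).card = r) a b x : ℝ) /
        ((fam f (fun p => (rts f p).card = r) x).card : ℝ) := by
      funext x
      exact share_eq _ _ _ _ _
    rw [h1, ratio (K := 0) hw (fun x => by rw [sub_self, abs_zero]) (b - a)]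
  rw [e2]
  constructor
  · intro h m hm
    rw [e1 m hm]
    exact decide_conv f (fun p => (rts f p).card = r) _ hw h0 h m hm
      (fun p => (rts (f.scaleRoots m) p).card = r) (hPP m hm)
  · intro h
    have h1 := decide f (fun p => (rts f p).card = r) _ hw 1
      (Eventually.of_forall fun x => by rw [one_mul]) h0
      (fun m p => (rts (f.scaleRoots m) p).card = r) hPP
      (fun m hm => (e1 m hm).1 (h m hm))
    exact h1.2

lemma often_scale (f : ℤ[X]) (r : ℕ) (h : Often f r) (m : ℤ) (hm : m ≠ 0) :
    Often (f.scaleRoots m) r := by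
  unfold Often at h ⊢
  have hfin : (m.natAbs.primeFactors : Set ℕ).Finite := Finset.finite_toSet _
  refine (h.sdiff hfin).mono ?_
  rintro p ⟨⟨hp, hc⟩, hpm⟩
  refine ⟨hp, ?_⟩
  have hd : ¬ (p : ℤ) ∣ m := by
    intro hd
    apply hpm
    rw [mem_coe, Nat.mem_primeFactors]
    exact ⟨hp, Int.natCast_dvd.1 hd, Int.natAbs_ne_zero.2 hm⟩
  rw [← hc]
  exact (rts_card f m p hp hd).symm

/-- (1) Let `f` be monic and irreducible of degree `n ≥ 2` (with any Galois group) and `r ≥ 1` such
that infinitely many primes have exactly `r` roots of `f`. The roots of `f` are equidistributed along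
these primes if and only if, for every integer `m ≠ 0`, one third of the roots of `m ^ n f(X / m)`
along its primes with `r` roots is in `[0, p / 3)`. (2) Q1 (`S19077`) is equivalent to the statement
that for all `f` with a cyclic Galois group and all `r ≥ 2` as in Q1 one third of the roots along the
primes with `r` roots is in `[0, p / 3)`. -/
theorem result :
    (∀ f : ℤ[X], Admissible f → ∀ r : ℕ, 1 ≤ r → Often f r →
      (Equidistributed f r ↔ ∀ m : ℤ, m ≠ 0 → FirstThird (f.scaleRoots m) r)) ∧
    ((∀ f : ℤ[X], Admissible f → IsCyclic (f.map (Int.castRingHom ℚ)).Gal →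
        ∀ r : ℕ, 2 ≤ r → Often f r → Equidistributed f r) ↔
      ∀ f : ℤ[X], Admissible f → IsCyclic (f.map (Int.castRingHom ℚ)).Gal →
        ∀ r : ℕ, 2 ≤ r → Often f r → FirstThird f r) := by
  refine ⟨single, fun h f hf hc r hr hinf => ?_, fun h f hf hc r hr hinf => ?_⟩
  · have h1 := h f hf hc r hr hinf 0 (1 / 3) le_rfl (by norm_num) (by norm_num)
    rw [sub_zero] at h1
    exact h1
  · rw [single f hf r (by omega) hinf]
    intro m hm
    refine h _ ⟨(monic_scaleRoots_iff m).2 hf.1, irr_scale_int f hf.1 hf.2.1 m hm, ?_⟩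
      (cyclic_scale f hf.1 m hc) r hr (often_scale f r hinf m hm)
    rw [natDegree_scaleRoots]
    exact hf.2.2

end Pool.Agent.Results.MP_fd299c_nt.OneThirdDecides
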